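import Mathlib
import Pool.Agent.V11191.MC.Main

/-!
# MP_ac6992_gt: disproof

There is a Cantor set `C` in the plane `ℂ` and a finitely generated non-amenable subgroup `H` of
the mapping class group of `ℂ ∖ C` such that every homogeneous quasimorphism on `H` is a
homomorphism, that is `Q̃(H) = Q(H) / Hom(H, ℝ) = 0`.

* `Surf C` is the surface `ℂ ∖ C`, `Homeo0 X` the normal subgroup of the homeomorphisms of `X`
  isotopic to the identity (through a level preserving homeomorphism of `[0,1] × X`), and
  `MapE X = Homeo(X) / Homeo₀(X)`.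
* `OrPres f` says that `f` preserves the orientation of `ℂ ∖ C`, so `H` lies in the mapping class
  group `Homeo⁺(ℂ ∖ C) / Homeo₀(ℂ ∖ C)`.
* `Amen H` is amenability of the discrete group `H` (a finitely additive left-invariant
  probability on all subsets).
* `HQM φ` says that `φ` is a homogeneous quasimorphism.
-/

set_option autoImplicit false

open Pool.Agent.V11191.MC

namespace Pool.Agent.Results.MP_ac6992_gt.NonamenableNoQuasimorphisms

theorem result : ∃ C : Set ℂ, Nonempty (C ≃ₜ (ℕ → Bool)) ∧
    ∃ H : Subgroup (MapE (Surf C)), H.FG ∧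
      (∀ h ∈ H, ∃ f : Surf C ≃ₜ Surf C, OrPres f ∧ (QuotientGroup.mk f : MapE (Surf C)) = h) ∧
      ¬ Amen H ∧
      ∀ φ : H → ℝ, HQM φ → ∀ g h : H, φ (g * h) = φ g + φ h :=
  ⟨CC, CC_cantor, HH, HH_fg, HH_orient, nonamen, fun φ hφ g h => quasi φ hφ g h⟩

end Pool.Agent.Results.MP_ac6992_gt.NonamenableNoQuasimorphisms
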